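import Pool.Agent.MP_3d209c_an.H71.Sharp

/-!
Linear preservers of hyperbolicity for every cone invariant under a subspace of codimension at
most two (in particular every cone in the plane): it suffices to test on products of anchor forms
and one power of a free form.
-/

open Finset Set

namespace Pool.Agent.Results.MP_3d209c_an.AnchorTest

open Pool.Agent.MP_3d209c_an.H71

/-- The factor `w i` lies strictly between two non-proportional factors: it is a sum of multiples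
of them that have the same strict sign at every point of `V`. -/
def Inner {n d : ℕ} (V : Set (Fin n → ℝ)) (w : Fin d → Fin n → ℝ) (i : Fin d) : Prop :=
  ∃ (j k : Fin d) (p q : ℝ), w i = p • w j + q • w k ∧ LinearIndependent ℝ ![w j, w k] ∧
    ∀ e ∈ V, 0 < (p * (w j ⬝ᵥ e)) * (q * (w k ⬝ᵥ e))

/-- Any two forms with the same strict sign on `V` lie, up to sign, in the cone spanned by two
members of `E` with the same strict sign on `V`. -/
def Anchors {n : ℕ} (V E : Set (Fin n → ℝ)) : Prop :=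
  ∀ w w' : Fin n → ℝ, (∀ e ∈ V, 0 < (w ⬝ᵥ e) * (w' ⬝ᵥ e)) →
    ∃ u ∈ E, ∃ v ∈ E, (∀ e ∈ V, 0 < (u ⬝ᵥ e) * (v ⬝ᵥ e)) ∧ ∃ p q p' q' : ℝ,
      0 ≤ p * q ∧ 0 ≤ p' * q' ∧ w = p • u + q • v ∧ w' = p' • u + q' • v

/-- Products of linear forms without zeros on `V`, all of them anchors except for copies of one
form `l`, whose inner factors are all proportional. -/
def Test {n : ℕ} (V E : Set (Fin n → ℝ)) (f : MvPolynomial (Fin n) ℝ) : Prop :=
  ∃ (d : ℕ) (w : Fin d → Fin n → ℝ) (l : Fin n → ℝ), f = ∏ i, lin (w i) ∧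
    (∀ i, ∀ e ∈ V, w i ⬝ᵥ e ≠ 0) ∧ (∀ i, w i ≠ l → w i ∈ E) ∧
    ∀ i j, Inner V w i → Inner V w j → ∃ c : ℝ, w i = c • w j

theorem seg_of_pos {u v r1 r2 r : ℝ} (h : 0 < (u + r1 * v) * (u + r2 * v)) (hr : r ∈ uIcc r1 r2) :
    u + r * v ≠ 0 := by
  intro hz
  have hu : u = -(r * v) := by linarith
  rw [hu] at h
  have h4 : (r1 - r) * (r2 - r) ≤ 0 := by
    rcases mem_uIcc.1 hr with h | h <;> nlinarith [h.1, h.2]
  nlinarith [mul_nonneg (neg_nonneg.2 h4) (sq_nonneg v)]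

theorem pos_of_seg {u v r1 r2 : ℝ} (h : ∀ r ∈ uIcc r1 r2, u + r * v ≠ 0) :
    0 < (u + r1 * v) * (u + r2 * v) := by
  by_contra hle
  have hc : Continuous fun r : ℝ => (u + r1 * v) * (u + r * v) := by fun_prop
  obtain ⟨r, hr, hr0⟩ := intermediate_value_uIcc (a := r1) (b := r2) hc.continuousOn
    (mem_uIcc_of_ge (not_lt.1 hle) (mul_self_nonneg _))
  exact mul_ne_zero (h r1 left_mem_uIcc) (h r hr) hr0

theorem coeff_eq {n : ℕ} {m0 m1 : Fin n → ℝ} (hm1 : m1 ≠ 0) {r r1 r2 p q : ℝ} (hsum : p + q = 1)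
    (hw : m0 + r • m1 = p • (m0 + r1 • m1) + q • (m0 + r2 • m1)) : r = p * r1 + q * r2 := by
  have : (r - (p * r1 + q * r2)) • m1 = 0 := by
    have e1 : m0 = (p + q) • m0 := by rw [hsum, one_smul]
    have e2 : r • m1 = (p • (m0 + r1 • m1) + q • (m0 + r2 • m1)) - (p + q) • m0 := by
      rw [← hw, ← e1]; abel
    rw [sub_smul, e2]
    module
  exact sub_eq_zero.1 ((smul_eq_zero.1 this).resolve_right hm1)

theorem between {n d : ℕ} {V : Set (Fin n → ℝ)} {e m0 m1 : Fin n → ℝ} (he : e ∈ V)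
    (h0 : m0 ⬝ᵥ e = 1) (h1 : m1 ⬝ᵥ e = 0) (hm1 : m1 ≠ 0) {t : Fin d → ℝ} {i : Fin d}
    (hi : Inner V (fun i => m0 + t i • m1) i) :
    ∃ j k, t j < t i ∧ t i < t k ∧
      ∀ r ∈ Icc (t j) (t k), ∀ x ∈ V, (m0 + r • m1) ⬝ᵥ x ≠ 0 := by
  obtain ⟨j, k, p, q, hw, hli, hpos⟩ := hi
  have hone : ∀ r : ℝ, (m0 + r • m1) ⬝ᵥ e = 1 := fun r => by simp [h0, h1]
  have hpq : 0 < p * q := by simpa [hone] using hpos e he
  have hsum : p + q = 1 := by
    have := congrArg (· ⬝ᵥ e) hw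
    simp only [add_dotProduct, smul_dotProduct, h0, h1, smul_eq_mul] at this
    linarith
  have hp : 0 < p := by nlinarith
  have hq : 0 < q := by nlinarith
  have hne : m0 + t j • m1 ≠ m0 + t k • m1 := by
    intro h
    have := (LinearIndependent.pair_iff.1 hli) 1 (-1) (by simp only [h]; module)
    exact one_ne_zero this.1
  have hjk : t j ≠ t k := fun h => hne (by rw [h])
  have hti : t i = p * t j + q * t k := coeff_eq hm1 hsum hw
  have hseg : ∀ r ∈ uIcc (t j) (t k), ∀ x ∈ V, (m0 + r • m1) ⬝ᵥ x ≠ 0 := by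
    intro r hr x hx
    have h2 := hpos x hx
    simp only [add_dotProduct, smul_dotProduct, smul_eq_mul] at h2 ⊢
    refine seg_of_pos ((mul_pos_iff_of_pos_left hpq).1 ?_) hr
    linarith
  have g1 : t i - t j = q * (t k - t j) := by linear_combination hti + t j * hsum
  have g2 : t k - t i = p * (t k - t j) := by linear_combination (-1) * hti - t k * hsum
  rcases lt_or_gt_of_ne hjk with h | h
  · have := mul_pos hq (sub_pos.2 h)
    have := mul_pos hp (sub_pos.2 h)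
    refine ⟨j, k, by linarith, by linarith, fun r hr => hseg r (Icc_subset_uIcc hr)⟩
  · have := mul_pos hq (sub_pos.2 h)
    have := mul_pos hp (sub_pos.2 h)
    refine ⟨k, j, by linarith, by linarith, fun r hr => hseg r (Icc_subset_uIcc' hr)⟩

theorem inner_of_smul {n d : ℕ} {V : Set (Fin n → ℝ)} {w : Fin d → Fin n → ℝ} {κ : Fin d → ℝ}
    (hκ : ∀ i, κ i ≠ 0) {i : Fin d} (h : Inner V (fun i => κ i • w i) i) : Inner V w i := by
  obtain ⟨j, k, p, q, hw, hli, hpos⟩ := h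
  have hi := hκ i
  have hj := hκ j
  have hk := hκ k
  refine ⟨j, k, p * κ j / κ i, q * κ k / κ i, ?_, LinearIndependent.pair_iff.2 fun r s h => ?_,
    fun e he => ?_⟩
  · have : w i = (κ i)⁻¹ • κ i • w i := by rw [smul_smul, inv_mul_cancel₀ hi, one_smul]
    simp only at hw
    rw [this, hw]
    simp only [div_eq_inv_mul]
    module
  · have := LinearIndependent.pair_iff.1 hli (r / κ j) (s / κ k) (by
      simp only [smul_smul, div_mul_cancel₀ _ hj, div_mul_cancel₀ _ hk, h])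
    exact ⟨(div_eq_zero_iff.1 this.1).resolve_right hj, (div_eq_zero_iff.1 this.2).resolve_right hk⟩
  · have h1 := hpos e he
    simp only [smul_dotProduct, smul_eq_mul] at h1
    have : p * κ j / κ i * w j ⬝ᵥ e * (q * κ k / κ i * w k ⬝ᵥ e)
        = p * (κ j * w j ⬝ᵥ e) * (q * (κ k * w k ⬝ᵥ e)) / κ i ^ 2 := by field_simp
    rw [this]
    positivity

theorem exists_box {d : ℕ} (R : Set ℝ) (ρ : Fin d → ℝ) (hρ : ∀ i, ρ i ∈ R) :
    ∃ a b : Fin d → ℝ, ρ ∈ Icc a b ∧ (∀ i, Icc (a i) (b i) ⊆ R) ∧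
      ∀ i j, uIcc (ρ i) (ρ j) ⊆ R → a i = a j ∧ b i = b j := by
  classical
  let S : Fin d → Finset (Fin d) := fun i => univ.filter fun j => uIcc (ρ i) (ρ j) ⊆ R
  have hS : ∀ i, i ∈ S i := fun i => by simp [S, hρ i]
  have hmin : ∀ i, ∃ j ∈ S i, ∀ k ∈ S i, ρ j ≤ ρ k := fun i =>
    Finset.exists_min_image (S i) ρ ⟨i, hS i⟩
  have hmax : ∀ i, ∃ j ∈ S i, ∀ k ∈ S i, ρ k ≤ ρ j := fun i =>
    Finset.exists_max_image (S i) ρ ⟨i, hS i⟩
  choose lo hlo hlo' using hmin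
  choose hi hhi hhi' using hmax
  have hsub : ∀ i, Icc (ρ (lo i)) (ρ (hi i)) ⊆ R := by
    intro i x hx
    have e1 : uIcc (ρ i) (ρ (lo i)) ⊆ R := by simpa [S] using hlo i
    have e2 : uIcc (ρ i) (ρ (hi i)) ⊆ R := by simpa [S] using hhi i
    rcases le_total x (ρ i) with h | h
    · exact e1 (mem_uIcc_of_ge hx.1 h)
    · exact e2 (mem_uIcc_of_le h hx.2)
  have hmem : ∀ i, ρ i ∈ Icc (ρ (lo i)) (ρ (hi i)) := fun i => ⟨hlo' i i (hS i), hhi' i i (hS i)⟩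
  refine ⟨fun i => ρ (lo i), fun i => ρ (hi i), ⟨fun i => (hmem i).1, fun i => (hmem i).2⟩,
    hsub, fun i j hij => ?_⟩
  have hSS : S i = S j := by
    ext k
    simp only [S, Finset.mem_filter, Finset.mem_univ, true_and]
    constructor
    · intro h
      exact (uIcc_subset_uIcc_union_uIcc (b := ρ i)).trans
        (union_subset (by rwa [Set.uIcc_comm]) h)
    · intro h
      exact (uIcc_subset_uIcc_union_uIcc (b := ρ j)).trans (union_subset hij h)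
  exact ⟨le_antisymm (hlo' i _ (hSS ▸ hlo j)) (hlo' j _ (hSS ▸ hlo i)),
    le_antisymm (hhi' j _ (hSS ▸ hhi i)) (hhi' i _ (hSS ▸ hhi j))⟩

theorem normal_form {n : ℕ} {V : Set (Fin n → ℝ)} {L : Submodule ℝ (Fin n → ℝ)}
    (hVL : ∀ e ∈ V, ∀ y ∈ L, e + y ∈ V) {e m0 m1 α : Fin n → ℝ} (he : e ∈ V)
    (hfr : ∀ x, x - ((m0 ⬝ᵥ x) • e + (m1 ⬝ᵥ x) • α) ∈ L) {u : Fin n → ℝ}
    (hu : ∀ x ∈ V, u ⬝ᵥ x ≠ 0) : ∃ r : ℝ, u = (u ⬝ᵥ e) • (m0 + r • m1) := by
  have hL : ∀ y ∈ L, u ⬝ᵥ y = 0 := by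
    intro y hy
    by_contra h
    apply hu _ (hVL e he _ (L.smul_mem (-(u ⬝ᵥ e) / (u ⬝ᵥ y)) hy))
    rw [dotProduct_add, dotProduct_smul, smul_eq_mul]
    field_simp
    ring
  refine ⟨u ⬝ᵥ α / u ⬝ᵥ e, ?_⟩
  ext i
  have h1 := hL _ (hfr (Pi.single i 1))
  have h2 := hu e he
  simp only [dotProduct_sub, dotProduct_add, dotProduct_smul, dotProduct_single, mul_one,
    smul_eq_mul] at h1
  simp only [Pi.smul_apply, Pi.add_apply, smul_eq_mul]
  field_simp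
  linarith

theorem mem_uIcc_of_comb {p q r1 r2 : ℝ} (hpq : 0 ≤ p * q) (hsum : p + q = 1) :
    p * r1 + q * r2 ∈ uIcc r1 r2 := by
  have hp : 0 ≤ p := by nlinarith
  have hq : 0 ≤ q := by nlinarith
  have g1 : p * r1 + q * r2 - r1 = q * (r2 - r1) := by linear_combination r1 * hsum
  have g2 : r2 - (p * r1 + q * r2) = p * (r2 - r1) := by linear_combination (-r2) * hsum
  rcases le_total r1 r2 with h | h
  · have := mul_nonneg hq (sub_nonneg.2 h)
    have := mul_nonneg hp (sub_nonneg.2 h)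
    exact mem_uIcc_of_le (by linarith) (by linarith)
  · have := mul_nonneg hq (sub_nonneg.2 h)
    have := mul_nonneg hp (sub_nonneg.2 h)
    exact mem_uIcc_of_ge (by linarith) (by linarith)

theorem anchor_box {n : ℕ} {V E : Set (Fin n → ℝ)} (hE : Anchors V E)
    {L : Submodule ℝ (Fin n → ℝ)} (hVL : ∀ e ∈ V, ∀ y ∈ L, e + y ∈ V) {e m0 m1 α : Fin n → ℝ}
    (he : e ∈ V) (h0 : m0 ⬝ᵥ e = 1) (h1 : m1 ⬝ᵥ e = 0) (hm1 : m1 ≠ 0)
    (hfr : ∀ x, x - ((m0 ⬝ᵥ x) • e + (m1 ⬝ᵥ x) • α) ∈ L) (a b : ℝ) (hab : a ≤ b)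
    (hR : Icc a b ⊆ {r | ∀ x ∈ V, (m0 + r • m1) ⬝ᵥ x ≠ 0}) :
    ∃ A B : ℝ, A ≤ a ∧ b ≤ B ∧ Icc A B ⊆ {r | ∀ x ∈ V, (m0 + r • m1) ⬝ᵥ x ≠ 0} ∧
      ∀ r, r = A ∨ r = B → ∃ κ : ℝ, κ ≠ 0 ∧ κ • (m0 + r • m1) ∈ E := by
  obtain ⟨u, huE, v, hvE, huv, p, q, p', q', hpq, hpq', hw, hw'⟩ :=
    hE (m0 + a • m1) (m0 + b • m1) fun x hx => by
      simp only [add_dotProduct, smul_dotProduct, smul_eq_mul]
      refine pos_of_seg fun r hr => ?_
      rw [Set.uIcc_of_le hab] at hr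
      simpa using hR hr x hx
  obtain ⟨r1, hu⟩ := normal_form hVL he hfr (u := u) fun x hx => left_ne_zero_of_mul (huv x hx).ne'
  obtain ⟨r2, hv⟩ := normal_form hVL he hfr (u := v) fun x hx => right_ne_zero_of_mul (huv x hx).ne'
  have hκ := huv e he
  set κ1 := u ⬝ᵥ e
  set κ2 := v ⬝ᵥ e
  have hmem : ∀ r p q : ℝ, 0 ≤ p * q → m0 + r • m1 = p • u + q • v → r ∈ uIcc r1 r2 := by
    intro r p q hpq hw
    have hsum : p * κ1 + q * κ2 = 1 := by
      have := congrArg (· ⬝ᵥ e) hw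
      simp only [add_dotProduct, smul_dotProduct, h0, h1, smul_eq_mul] at this
      linarith
    rw [hu, hv, smul_smul, smul_smul] at hw
    rw [coeff_eq hm1 hsum hw]
    exact mem_uIcc_of_comb (by nlinarith [mul_nonneg hpq hκ.le]) hsum
  refine ⟨min r1 r2, max r1 r2, (hmem a p q hpq hw).1, (hmem b p' q' hpq' hw').2,
    fun r hr x hx => ?_, fun r hr => ?_⟩
  · have h2 := huv x hx
    rw [hu, hv] at h2
    simp only [add_dotProduct, smul_dotProduct, smul_eq_mul] at h2 ⊢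
    refine seg_of_pos ((mul_pos_iff_of_pos_left hκ).1 ?_) hr
    linarith
  · have : r = r1 ∨ r = r2 := by
      rcases hr with rfl | rfl
      · exact min_choice _ _
      · exact max_choice _ _
    rcases this with rfl | rfl
    · exact ⟨κ1, left_ne_zero_of_mul hκ.ne', hu ▸ huE⟩
    · exact ⟨κ2, right_ne_zero_of_mul hκ.ne', hv ▸ hvE⟩

theorem result {n : ℕ} (V : Set (Fin n → ℝ)) (hV : IsCone V) (L : Submodule ℝ (Fin n → ℝ))
    (hL : n ≤ Module.finrank ℝ L + 2) (hVL : ∀ e ∈ V, ∀ y ∈ L, e + y ∈ V)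
    (E : Set (Fin n → ℝ)) (hE : Anchors V E)
    (T : MvPolynomial (Fin n) ℝ →ₗ[ℝ] MvPolynomial (Fin n) ℝ) :
    (∀ f ∈ HV V, T f ∈ HV V ∪ {0}) ↔ ∀ f, Test V E f → T f ∈ HV V ∪ {0} := by
  constructor
  · rintro h f ⟨d, w, l, rfl, hw, _⟩
    exact h _ (prod_lin_mem w hw)
  intro h f hf
  obtain ⟨e, he⟩ := hV.1
  by_cases heL : e ∈ L
  · have h0 : (0 : Fin n → ℝ) ∈ V := by simpa using hVL e he (-e) (L.neg_mem heL)
    obtain ⟨c, rfl⟩ := const_of_zero_mem h0 hf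
    rw [map_smul]
    exact smul_mem
      (h 1 ⟨0, Fin.elim0, 0, by simp, fun i => i.elim0, fun i => i.elim0, fun i => i.elim0⟩) c
  obtain ⟨m0, m1, α, h0, h1, hfr⟩ := exists_frame L hL heL
  obtain ⟨d, c, ρ, hfac⟩ := factor hVL he hfr hf
  have hF : ∀ t : Fin d → ℝ, F (lin m0) (lin m1) t = ∏ i, lin (m0 + t i • m1) := fun t => by
    simp only [F, lin_add, lin_smul]
  let R : Set ℝ := {r | ∀ x ∈ V, (m0 + r • m1) ⬝ᵥ x ≠ 0}
  have hρ : ∀ i, ρ i ∈ R := by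
    intro i x hx hz
    apply (hf.2 x hx).1
    rw [hfac, MvPolynomial.smul_eval, hF, map_prod,
      Finset.prod_eq_zero (Finset.mem_univ i) (by rw [eval_lin, hz]), mul_zero]
  rw [hfac, map_smul]
  refine smul_mem ?_ c
  by_cases hm1 : m1 = 0
  · rw [hF]
    exact h _ ⟨d, fun i => m0 + ρ i • m1, m0, rfl, hρ, fun i hi => absurd (by simp [hm1]) hi,
      fun i j _ _ => ⟨1, by simp [hm1]⟩⟩
  obtain ⟨a, b, hρab, hR, hcl⟩ := exists_box R ρ hρ
  have hab : ∀ i, a i ≤ b i := fun i => (hρab.1 i).trans (hρab.2 i)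
  choose! A B hA hB hAB hκ using anchor_box hE hVL he h0 h1 hm1 hfr
  have hρ' : ∀ i, ρ i ∈ Icc (A (a i) (b i)) (B (a i) (b i)) := fun i =>
    ⟨(hA _ _ (hab i) (hR i)).trans (hρab.1 i), (hρab.2 i).trans (hB _ _ (hab i) (hR i))⟩
  refine targetC (lin m0) (lin m1) T hV.1 (a := fun i => A (a i) (b i))
    (b := fun i => B (a i) (b i)) (fun t ht htest => ?_) ρ ⟨fun i => (hρ' i).1, fun i => (hρ' i).2⟩
  have ht' : ∀ i, t i ∈ Icc (A (a i) (b i)) (B (a i) (b i)) := fun i => ⟨ht.1 i, ht.2 i⟩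
  have hcl' : ∀ i j, uIcc (t i) (t j) ⊆ R → a i = a j ∧ b i = b j := by
    intro i j hij
    refine hcl i j (uIcc_subset_uIcc_union_uIcc (b := t i) |>.trans (union_subset ?_
      (uIcc_subset_uIcc_union_uIcc (b := t j) |>.trans (union_subset hij ?_))))
    · exact (uIcc_subset_Icc (hρ' i) (ht' i)).trans (hAB _ _ (hab i) (hR i))
    · exact (uIcc_subset_Icc (ht' j) (hρ' j)).trans (hAB _ _ (hab j) (hR j))
  have hin : ∀ i, Inner V (fun i => m0 + t i • m1) i →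
      A (a i) (b i) < t i ∧ t i < B (a i) (b i) := by
    intro i hi
    obtain ⟨j, k, hj, hk, hseg⟩ := between he h0 h1 hm1 hi
    have g1 := hcl' i j fun r hr => hseg r
      (uIcc_subset_Icc ⟨hj.le, hk.le⟩ ⟨le_rfl, (hj.trans hk).le⟩ hr)
    have g2 := hcl' i k fun r hr => hseg r
      (uIcc_subset_Icc ⟨hj.le, hk.le⟩ ⟨(hj.trans hk).le, le_rfl⟩ hr)
    have f1 := (ht' j).1
    have f2 := (ht' k).2
    rw [← g1.1, ← g1.2] at f1
    rw [← g2.1, ← g2.2] at f2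
    exact ⟨f1.trans_lt hj, hk.trans_le f2⟩
  have hch : ∀ i, ∃ κ : ℝ, κ ≠ 0 ∧ (A (a i) (b i) < t i ∧ t i < B (a i) (b i) → κ = 1) ∧
      (¬ (A (a i) (b i) < t i ∧ t i < B (a i) (b i)) → κ • (m0 + t i • m1) ∈ E) := by
    intro i
    by_cases hi : A (a i) (b i) < t i ∧ t i < B (a i) (b i)
    · exact ⟨1, one_ne_zero, fun _ => rfl, fun h => absurd hi h⟩
    · obtain ⟨κ, h2, h3⟩ := hκ _ _ (hab i) (hR i) (t i) (by
        rcases not_and_or.1 hi with h | h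
        · exact Or.inl (le_antisymm (not_lt.1 h) (ht' i).1)
        · exact Or.inr (le_antisymm (ht' i).2 (not_lt.1 h)))
      exact ⟨κ, h2, fun h => absurd h hi, fun _ => h3⟩
  choose κ hκ0 hκ1 hκE using hch
  have hl : ∃ l : Fin n → ℝ, ∀ i, A (a i) (b i) < t i ∧ t i < B (a i) (b i) →
      κ i • (m0 + t i • m1) = l := by
    by_cases hex : ∃ i, A (a i) (b i) < t i ∧ t i < B (a i) (b i)
    · obtain ⟨j, hj⟩ := hex
      exact ⟨m0 + t j • m1, fun i hi => by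
        rw [hκ1 i hi, one_smul, htest i j hi.1 hi.2 hj.1 hj.2]⟩
    · exact ⟨0, fun i hi => absurd ⟨i, hi⟩ hex⟩
  obtain ⟨l, hl⟩ := hl
  have hprod : F (lin m0) (lin m1) t = (∏ i, κ i)⁻¹ • ∏ i, lin (κ i • (m0 + t i • m1)) := by
    simp only [lin_smul (κ _)]
    rw [Finset.prod_smul, smul_smul, inv_mul_cancel₀ (Finset.prod_ne_zero_iff.2 fun i _ => hκ0 i),
      one_smul, hF]
  rw [hprod, map_smul]
  refine smul_mem (h _ ⟨d, fun i => κ i • (m0 + t i • m1), l, rfl, fun i x hx => ?_,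
    fun i hi => hκE i fun h => hi (hl i h), fun i j hi hj => ⟨1, ?_⟩⟩) _
  · rw [smul_dotProduct]
    exact smul_ne_zero (hκ0 i) (hAB _ _ (hab i) (hR i) (ht' i) x hx)
  · simp only [one_smul]
    rw [hl i (hin i (inner_of_smul hκ0 hi)), hl j (hin j (inner_of_smul hκ0 hj))]

end Pool.Agent.Results.MP_3d209c_an.AnchorTest
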