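import Pool.Agent.MP_3d209c_an.H45.Frame
import Pool.Agent.MP_3d209c_an.H45.Pencil
import Pool.Agent.MP_3d209c_an.H45.At

/-!
Linear preservers of hyperbolicity for all connected cones in three dimensions and for connected
cones approximated from outside by cylinders over such cones, with the Lorentz cone as an example.
-/

namespace Pool.Agent.Results.MP_3d209c_an.ConvexThree

open Filter Topology MvPolynomial Pool.Agent.MP_3d209c_an.H71 Pool.Agent.MP_3d209c_an.H61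
  Pool.Agent.MP_3d209c_an.H45

/-- Every member `(U, w)` of `E` is an open convex cone in three dimensions and an independent
triple of forms with `V ⊆ Cyl U w`, and every open convex cone containing `V` contains `Cyl U w`
for a member of `E`. -/
def Atlas {n : ℕ} (V : Set (Fin n → ℝ)) (E : Set (Set (Fin 3 → ℝ) × (Fin 3 → Fin n → ℝ))) : Prop :=
  (∀ p ∈ E, IsOpen p.1 ∧ Convex ℝ p.1 ∧ IsCone p.1 ∧ LinearIndependent ℝ p.2 ∧ V ⊆ Cyl p.1 p.2) ∧
    ∀ W, IsCone W → IsOpen W → Convex ℝ W → V ⊆ W → ∃ p ∈ E, Cyl p.1 p.2 ⊆ W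

theorem result {n : ℕ} (V : Set (Fin n → ℝ)) (hV : IsCone V) (hc : IsPreconnected V)
    (E : Set (Set (Fin 3 → ℝ) × (Fin 3 → Fin n → ℝ))) (hE : Atlas V E)
    (T : MvPolynomial (Fin n) ℝ →ₗ[ℝ] MvPolynomial (Fin n) ℝ) :
    (∀ f ∈ HV V, T f ∈ HV V ∪ {0}) ↔
      ∀ U w, (U, w) ∈ E → ∀ (r : ℕ) (F : Fin r → MvPolynomial (Fin 3) ℝ) (k : Fin r → ℕ),
        (∀ i, F i ∈ HV U ∧ Irreducible (F i) ∧ (F i).IsHomogeneous (k i + 1) ∧ Rigid U (F i)) →
        (∀ i j, Strict U (F i) → Strict U (F j) → F j ∈ Tame U (F i) (k i) →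
          F i ∈ Tame U (F j) (k j) → Associated (F i) (F j)) →
        T (pull w (∏ i, F i)) ∈ HV V ∪ {0} := by
  constructor
  · intro h U w hw r F k hF _
    exact h _ (subst_mem (B := V) (w := w) (fun x hx => (hE.1 _ hw).2.2.2.2 hx)
      (prod_memH fun i => (hF i).1))
  intro h f hf
  obtain ⟨e, he⟩ := hV.1
  obtain ⟨d, hd⟩ := hf.1
  have hy := hf.2 e he
  obtain ⟨⟨U, w⟩, hw, hW⟩ := hE.2 (Gc e f) ⟨⟨e, fun τ _ => by simpa [← add_smul] using hy.1⟩,
    fun v hv r hr => by simpa using comb_Gc hd hy hv hv hr le_rfl⟩ isOpen_Gc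
    (fun x hx y hy' a b ha hb hab => by
      rcases ha.eq_or_lt with rfl | ha
      · simpa [(by linarith : b = 1)] using hy'
      · exact comb_Gc hd hy hx hy' ha hb) (subset_Gc hd hy hc he fun x hx => (hf.2 x hx).1)
  obtain ⟨hU, hUc, hUk, hw', hV'⟩ := hE.1 _ hw
  have hf' : f ∈ HV (Cyl U w) := ⟨hf.1, fun x hx => hyp_Gc hd hy (hW hx)⟩
  obtain ⟨a, ha⟩ := exists_dual hw'
  have h0 : ∀ (y : Fin 3 → ℝ) i, (w i ⬝ᵥ fun r => (fun j => a j r) ⬝ᵥ y) = y i := fun y i => by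
    have : (fun r => (fun j => a j r) ⬝ᵥ y) = ∑ j, y j • a j := by
      ext r; simp [dotProduct, mul_comm]
    simp [this, dotProduct_sum, ha]
  rw [show f = pull w (aeval (fun r => lin fun j => a j r) f) from MvPolynomial.funext fun x => by
    rw [pull, eval_subst, eval_subst, ← invariance hf' (e := e) (y := x - fun r =>
      (fun j => a j r) ⬝ᵥ fun i => w i ⬝ᵥ x) (fun r => by simpa [Cyl, h0] using hV' he)
      fun r => (fun j => a j r) ⬝ᵥ fun i => w i ⬝ᵥ x, add_sub_cancel]]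
  refine reduction hU hUc hUk (T ∘ₗ (aeval fun i => lin (w i)).toLinearMap) (fun f hf hF => ?_) _
    (subst_mem (fun y hy => by simpa [Cyl, h0] using hy) hf')
  obtain ⟨r, F, c, rfl, h1, h2⟩ := factor_of_not_flat hUk.1 hf hF
  choose k' hk' using fun i => (h1 i).1.1
  choose k hk using fun i => Nat.exists_eq_succ_of_ne_zero (deg_pos (h1 i).2.1 (hk' i))
  have hd : ∀ i, (F i).IsHomogeneous (k i + 1) := fun i => by simpa [hk] using hk' i
  rw [map_smul]
  refine smul_mem (h U w hw r F k (fun i => ⟨(h1 i).1, (h1 i).2.1, hd i,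
    rigid_of_not_flat hUc hUk (h1 i).1 (h1 i).2.1 (hd i) (h1 i).2.2⟩)
    fun i j s1 s2 t1 t2 => by_contra fun hna => ?_) c
  have ht : Tendsto (fun r : ℝ => (r, (0 : ℝ))) (𝓝 0) (𝓝 0) :=
    Continuous.tendsto' (by fun_prop) _ _ rfl
  refine h2 i j (fun e => hna (e ▸ Associated.refl _))
    (flat_pair hUk.1 (hd i) t1.1 (h1 i).2.1 (h1 j).2.1 hna ?_ ?_)
  · simpa using ht.eventually (strict_open hUc hUk (h1 i).1 (hd i) s1 t1 t1)
  · simpa using ht.eventually (strict_open hUc hUk (h1 j).1 (hd j) s2 t2 t2)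

/-- Every subset of three-space has an atlas: all open convex cones containing it. -/
theorem atlas_three (V : Set (Fin 3 → ℝ)) : Atlas V {p | IsOpen p.1 ∧ Convex ℝ p.1 ∧ IsCone p.1 ∧
    V ⊆ p.1 ∧ p.2 = fun i => Pi.single i 1} :=
  ⟨by
    rintro ⟨U, w⟩ ⟨h1, h2, h3, h4, rfl⟩
    exact ⟨h1, h2, h3, Pi.linearIndependent_single_one _ _, fun x hx => by simpa [Cyl] using h4 hx⟩,
  fun W h1 h2 h3 h4 => ⟨(W, fun i => Pi.single i 1), ⟨h2, h3, h1, h4, rfl⟩,
    fun x hx => by simpa [Cyl] using hx⟩⟩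

/-- An open convex cone and the cylinders over it have an atlas with one member. -/
theorem atlas_cyl {n : ℕ} {U : Set (Fin 3 → ℝ)} (h1 : IsOpen U) (h2 : Convex ℝ U) (h3 : IsCone U)
    {w : Fin 3 → Fin n → ℝ} (hw : LinearIndependent ℝ w) : Atlas (Cyl U w) {(U, w)} :=
  ⟨by rintro _ rfl; exact ⟨h1, h2, h3, hw, le_rfl⟩, fun _ _ _ _ h => ⟨_, rfl, h⟩⟩

/-- The open Lorentz cone. -/
def L : Set (Fin 3 → ℝ) := {x | 0 < x 0 ∧ x 1 ^ 2 + x 2 ^ 2 < x 0 ^ 2}

/-- The Lorentz form. -/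
noncomputable def Q : MvPolynomial (Fin 3) ℝ := X 0 ^ 2 - X 1 ^ 2 - X 2 ^ 2

theorem tame_Q {F G : MvPolynomial (Fin 3) ℝ} (hF : F ∈ HV L) {j : ℕ} (hG : G.IsHomogeneous j) :
    Q * G ∈ Tame L F (j + 1) := by
  obtain ⟨C, hC⟩ := (isCompact_closedBall (0 : Fin 3 → ℝ) 1).exists_bound_of_continuousOn
    (continuous_eval G).continuousOn
  have hQ : Q.IsHomogeneous 2 := ((isHomogeneous_X_pow _ _).sub (isHomogeneous_X_pow _ _)).sub
    (isHomogeneous_X_pow _ _)
  refine ⟨by simpa [add_comm 2] using hQ.mul hG, 9 * C, fun x hx y hy => ?_⟩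
  have x0 : x 0 ≤ ‖x‖ := (le_abs_self _).trans (norm_le_pi_norm x 0)
  have x1 : 0 < ‖x‖ := hx.1.trans_le x0
  have h1 : |eval x G| ≤ C * ‖x‖ ^ j := by
    have := hC (‖x‖⁻¹ • x) (by simp [norm_smul, x1.ne'])
    rwa [eval_scale hG, norm_mul, norm_pow, norm_inv, norm_norm, inv_pow, inv_mul_le_iff₀'
      (by positivity)] at this
  have h2 : |eval x Q| ≤ 9 * (‖x‖ * ‖x - y‖) := by
    have hy' : y ∉ L := fun h => (hF.2 y h).1 hy
    have b : ∀ i, |x i - y i| ≤ ‖x - y‖ := fun i => norm_le_pi_norm (x - y) i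
    have a : ∀ i, |x i| ≤ ‖x‖ := fun i => norm_le_pi_norm x i
    obtain ⟨p0, p1⟩ := hx
    rw [abs_of_pos (by simp [Q]; linarith)]
    simp only [Q, map_sub, map_pow, eval_X]
    set d := ‖x - y‖
    by_cases hd : x 0 ≤ d
    · nlinarith [sq_nonneg (x 1), sq_nonneg (x 2), mul_le_mul x0 hd p0.le x1.le]
    have y0 : y 0 ^ 2 ≤ y 1 ^ 2 + y 2 ^ 2 := not_lt.1 fun h =>
      hy' ⟨by linarith [(abs_le.1 (b 0)).2], h⟩
    have c : ∀ i, |x i ^ 2 - y i ^ 2| ≤ 3 * (‖x‖ * d) := fun i => by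
      rw [sq_sub_sq, abs_mul, ← mul_assoc]
      refine mul_le_mul (abs_le.2 ⟨?_, ?_⟩) (b i) (abs_nonneg _) (by positivity) <;>
        linarith [abs_le.1 (a i), abs_le.1 (b i)]
    linarith [abs_le.1 (c 0), abs_le.1 (c 1), abs_le.1 (c 2)]
  rw [map_mul, abs_mul]
  exact (mul_le_mul h2 h1 (abs_nonneg _) (by positivity)).trans_eq (by ring)

/-- Rigid forms of the Lorentz cone: apart from `Q`, they meet the complex conic `Q = 0` in real
points only, and they have degree at most two if they are strict. -/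
theorem lorentz {F : MvPolynomial (Fin 3) ℝ} {k : ℕ} (hF : F ∈ HV L) (hi : Irreducible F)
    (hd : F.IsHomogeneous (k + 1)) (h : Rigid L F) (hQ : ¬F ∣ Q) :
    (∀ a b, cx a b F = 0 → cx a b Q = 0 → ¬LinearIndependent ℝ ![a, b]) ∧ (Strict L F → k ≤ 1) := by
  refine ⟨fun a b h1 h2 hab => ?_, fun hs => by_contra fun hk => ?_⟩
  · obtain ⟨s, t, h3, h4⟩ := h.1 a b hab h1 _ (tame_Q hF (lin_homogeneous a)) _
      (tame_Q hF (lin_homogeneous b)) (by rw [cx, map_mul]; exact mul_eq_zero_of_left h2 _)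
      (by rw [cx, map_mul]; exact mul_eq_zero_of_left h2 _)
    rw [← mul_smul_comm, ← mul_smul_comm, ← mul_add, ← lin_smul, ← lin_smul, ← lin_add] at h4
    obtain ⟨G, hG⟩ := (hi.prime.dvd_or_dvd h4).resolve_left hQ
    have h5 := congrArg (cx a b) hG
    rw [cx, aeval_lin, cx, map_mul, show aeval _ F = (0 : ℂ) from h1, zero_mul] at h5
    have h6 : (s • a + t • b) ⬝ᵥ a = 0 := by simpa using congrArg Complex.re h5
    have h7 : (s • a + t • b) ⬝ᵥ b = 0 := by simpa using congrArg Complex.im h5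
    have := LinearIndependent.pair_iff.1 hab s t (dotProduct_self_eq_zero.1 (by
      rw [dotProduct_add, dotProduct_smul, dotProduct_smul, h6, h7]; simp))
    tauto
  obtain ⟨j, rfl⟩ : ∃ j, k = j + 2 := ⟨k - 2, by omega⟩
  have hX := fun i : Fin 3 => tame_Q hF ((isHomogeneous_X_pow (R := ℝ) (0 : Fin 3) j).mul
    (isHomogeneous_X ℝ i))
  refine h.2 hs _ hd _ (hX 0) _ (hX 1) (Fintype.linearIndependent_iff.2 fun c hc => ?_)
  simp only [Fin.sum_univ_three, Matrix.cons_val] at hc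
  have c0 : c 0 = 0 := by_contra fun c0 => by
    have : F = Q * ((c 0)⁻¹ • -(c 1 • (X 0 ^ j * X 0) + c 2 • (X 0 ^ j * X 1))) := by
      rw [mul_smul_comm, eq_inv_smul_iff₀ c0, mul_neg, mul_add, mul_smul_comm, mul_smul_comm,
        eq_neg_iff_add_eq_zero, ← add_assoc, hc]
    rcases hi.isUnit_or_isUnit this with hu | hu
    · exact (hu.map (eval (0 : Fin 3 → ℝ))).ne_zero (by simp [Q])
    · exact hQ (this ▸ (hu.mul_right_dvd.2 dvd_rfl))
  have c1 : c 1 = 0 := by simpa [c0, Q] using congrArg (eval ![1, 0, 0]) hc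
  have c2 : c 2 = 0 := by
    have := congrArg (eval ![1, 2, 0]) hc
    simp [c0, c1, Q] at this
    exact this.resolve_right (by norm_num)
  intro i
  fin_cases i <;> assumption

end Pool.Agent.Results.MP_3d209c_an.ConvexThree
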