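import Pool.Agent.MP_3d209c_an.H45.Frame
import Pool.Agent.MP_3d209c_an.H45.Pencil

/-!
Linear preservers of hyperbolicity for three-dimensional polyhedral cones with any number of
generators, and for connected cones approximated from outside by their linear images.
-/

namespace Pool.Agent.Results.MP_3d209c_an.Polygon

open Pool.Agent.MP_3d209c_an.H71 Pool.Agent.MP_3d209c_an.H61 Pool.Agent.MP_3d209c_an.H45

/-- The numbers `1, 4, 6, 7, 7, 7, …` for `k = 1, 2, 3, …`. -/
def need (k : ℕ) : ℕ := 7 - (5 - k).choose 2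

/-- The preimage of a cone under an independent triple of forms is framed by that triple. -/
theorem frames_cyl {n : ℕ} (U : Set (Fin 3 → ℝ)) {w : Fin 3 → Fin n → ℝ}
    (hw : LinearIndependent ℝ w) : Frames (Cyl U w) U {w} :=
  ⟨by rintro _ rfl; exact ⟨hw, le_rfl⟩, fun _ _ _ _ h => ⟨w, rfl, h⟩⟩

theorem result {n m : ℕ} (q : Fin m → Fin 3 → ℝ)
    (hq : Pairwise fun j l => LinearIndependent ℝ ![q j, q l])
    (V : Set (Fin n → ℝ)) (hV : IsCone V) (hc : IsPreconnected V)
    (E : Set (Fin 3 → Fin n → ℝ)) (hE : Frames V (interior (cone q)) E)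
    (T : MvPolynomial (Fin n) ℝ →ₗ[ℝ] MvPolynomial (Fin n) ℝ) :
    (∀ f ∈ HV V, T f ∈ HV V ∪ {0}) ↔
      ∀ w ∈ E, ∀ (r : ℕ) (F : Fin r → MvPolynomial (Fin 3) ℝ) (k : Fin r → ℕ),
        (∀ i, F i ∈ HV (interior (cone q)) ∧ Irreducible (F i) ∧ (F i).IsHomogeneous (k i) ∧
          need (k i) ≤ (zeros q (F i)).ncard) →
        (∀ i j, k i = k j → k i ≤ 2 → zeros q (F i) = zeros q (F j) →
          (zeros q (F i)).ncard = need (k i) → Associated (F i) (F j)) →
        T (pull w (∏ i, F i)) ∈ HV V ∪ {0} := by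
  constructor
  · intro h w hw r F k hF _
    exact h _ (subst_mem (B := V) (w := w) (fun x hx => (hE.1 w hw).2 hx)
      (prod_memH fun i => (hF i).1))
  intro h
  obtain ⟨w0, hw0, -⟩ := hE.2 Set.univ ⟨Set.univ_nonempty, fun _ _ _ _ => trivial⟩ isOpen_univ
    convex_univ (Set.subset_univ _)
  have hne : (interior (cone q)).Nonempty := ⟨_, (hE.1 w0 hw0).2 hV.1.some_mem⟩
  refine frames_red hV hc isOpen_interior convex_int (isCone_int hne) hE T fun w hw f hf hF => ?_
  obtain ⟨r, F, c, rfl, h1, h2⟩ := factor_of_not_flat hne hf hF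
  choose k hk using fun i => (h1 i).1.1
  have hp := fun i => deg_pos (h1 i).2.1 (hk i)
  rw [pull, map_smul, map_smul]
  refine smul_mem (h w hw r F k (fun i => ⟨(h1 i).1, (h1 i).2.1, hk i, ?_⟩)
    fun i j hij h3 hz h4 => ?_) c
  · by_contra hlt
    obtain ⟨l, hl⟩ := Nat.exists_eq_succ_of_ne_zero (hp i)
    have hd := hk i
    rw [hl] at hd hlt
    refine (h1 i).2.2 ?_
    rcases Nat.eq_zero_or_pos l with rfl | h0
    · refine flat_line hne (h1 i).1 hd ((Set.ncard_eq_zero (Set.toFinite _)).1 ?_)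
      simpa [need, Nat.choose] using hlt
    · refine flat_big hq hne (h1 i).1 hd (h1 i).2.1 h0 ?_
      have : (4 - l).choose 2 ≤ 3 :=
        (Nat.choose_le_choose 2 (by omega : 4 - l ≤ 3)).trans (by decide)
      simp only [need, Nat.succ_eq_add_one, (by omega : 5 - (l + 1) = 4 - l)] at hlt
      omega
  · by_contra hna
    have hi := hk i
    have hj := hk j
    rw [← hij] at hj
    refine h2 i j (fun e => hna (e ▸ Associated.refl _))
      (flat_pair hne hi hj (h1 i).2.1 (h1 j).2.1 hna ?_ ?_) <;>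
    rcases (by have := hp i; omega : k i = 1 ∨ k i = 2) with e | e <;> rw [e] at hi hj h4
    · exact open_line hne (h1 i).1 hi hj hz
    · exact open_conic hq hne (h1 i).1 hi (h1 i).2.1 hj hz h4
    · exact open_line hne (h1 j).1 hj hi hz.symm
    · exact open_conic hq hne (h1 j).1 hj (h1 j).2.1 hi hz.symm (hz ▸ h4)

end Pool.Agent.Results.MP_3d209c_an.Polygon
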