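import Pool.Agent.MP_3d209c_an.H69.Main
import Pool.Agent.MP_3d209c_an.H69.Ex
import Pool.Agent.MP_3d209c_an.H69.RDich
import Pool.Agent.MP_3d209c_an.H69.RF1
import Pool.Agent.MP_3d209c_an.H69.RF2b
import Pool.Agent.MP_3d209c_an.H69.RGws
import Pool.Agent.MP_3d209c_an.H69.RGraded
import Pool.Agent.MP_3d209c_an.H69.RKern
import Pool.Agent.MP_3d209c_an.H69.RPen
import Pool.Agent.MP_3d209c_an.H69.RFib
import Pool.Agent.MP_3d209c_an.H69.RBnd
import Pool.Agent.MP_3d209c_an.H69.RDiv
import Pool.Agent.MP_3d209c_an.H69.RSym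
import Pool.Agent.MP_3d209c_an.H69.RSuf

/-!
Explicit classification of the linear preservers of hyperbolicity with respect to a thin cone
(a ray, a line, a countable union of rays, a cone over a set of length zero), in every dimension.
-/

namespace Pool.Agent.Results.MP_3d209c_an.ThinSymbol

open Pool.Agent.MP_3d209c_an.H71 Pool.Agent.MP_3d209c_an.H69

/-- Cones covered by countably many lines are thin. -/
theorem countable {n : ℕ} {V E : Set (Fin n → ℝ)} (hE : E.Countable)
    (h : ∀ v ∈ V, ∃ u ∈ E, ∃ r : ℝ, v = r • u) : Thin V := thin_of_countable hE h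

/-- Cones covered by the lines through a set of length zero are thin. -/
theorem lengthZero {n : ℕ} {V E : Set (Fin n → ℝ)}
    (hE : MeasureTheory.Measure.hausdorffMeasure 1 E = 0)
    (h : ∀ v ∈ V, ∃ u ∈ E, ∃ r : ℝ, v = r • u) : Thin V := thin_of_length_zero hE h

/-- Cones covered by the lines through a closed set, no slope set of which contains an interval,
are thin. -/
theorem closed {n : ℕ} {V E : Set (Fin n → ℝ)} (hE : IsClosed E)
    (hs : ∀ a b, interior (Slopes E a b) = ∅) (h : ∀ v ∈ V, ∃ u ∈ E, ∃ r : ℝ, v = r • u) :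
    Thin V := thin_of_closed hE hs h

theorem result {n : ℕ} (V : Set (Fin n → ℝ)) (_hV : IsCone V) (h0 : 0 ∉ V) (hT : Thin V)
    (T : MvPolynomial (Fin n) ℝ →ₗ[ℝ] MvPolynomial (Fin n) ℝ) :
    (∀ f ∈ HV V, T f ∈ HV V ∪ {0}) ↔ ∀ d : ℕ, RankOne V T d ∨
      (Graded T d ∧ ∀ e ∈ V, ∃ u ∈ V, Pencil T d u e ∨ Symbol T d u e) :=
  have hK := sKern sF1
  main sDense sDich sGraded (sPen hK (sFib hK) sDiv0) (sK hK)
    (sDiv (sBnd sCoef (sK hK) sDiv0) sDivJ) (sRep (sK hK)) (sSym (sSt sF2') sBd') (sSuf sGws)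
    h0 hT V T

end Pool.Agent.Results.MP_3d209c_an.ThinSymbol
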